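import Pool.Agent.Lib.MP_7d449a_al.AM.Rad
import Pool.Agent.Lib.MP_7d449a_al.Bdd

/-!
# Cocompact subgroups, boundaries, relatively amenable subgroups and the Tits core

Let `G` be a totally disconnected locally compact group, `P` a subgroup and `C` a compact subset with
`G = C P`. Let `G` act on a compact space `X` such that every element of `G` normalises a compact open
subgroup or its contraction groups act trivially on `X`. If `P` leaves a probability measure on `X`
invariant then so does `G`; if `X` is a boundary of `G` then it is a boundary of `P`; if `P`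
normalises a relatively amenable subgroup `A` then the closed normal subgroup of `G` generated by `A`
leaves a probability measure on `X` invariant. So if some nontrivial (relatively) amenable subgroup of
a nonamenable topologically simple group has a cocompact normaliser then the Tits core is dense.
-/

set_option autoImplicit false

open Filter Topology MeasureTheory
open scoped ENNReal

universe u v

namespace Pool.Agent.Results.MP_7d449a_al.CocompactSubgroups

/-- The contraction group of `g`, as a set. -/
def contractionGroup {G : Type*} [Group G] [TopologicalSpace G] (g : G) : Set G :=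
  {x : G | Tendsto (fun n : ℕ => g ^ n * x * (g ^ n)⁻¹) atTop (𝓝 1)}

/-- The Tits core: the subgroup generated by all contraction groups. -/
def titsCore (G : Type*) [Group G] [TopologicalSpace G] : Subgroup G :=
  Subgroup.closure (⋃ g : G, contractionGroup g)

/-- `g` is uniscalar: it normalises a compact open subgroup. -/
def IsUniscalar {G : Type u} [Group G] [TopologicalSpace G] (g : G) : Prop :=
  ∃ V : Subgroup G, IsOpen (V : Set G) ∧ IsCompact (V : Set G) ∧
    ∀ x ∈ V, g * x * g⁻¹ ∈ V ∧ g⁻¹ * x * g ∈ V

/-- The action of `G` on `X` is tame: for every `g` which is not uniscalar the contraction groups of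
`g` and of its inverse act trivially. -/
def IsTame (G : Type u) [Group G] [TopologicalSpace G] (X : Type v) [MulAction G X] : Prop :=
  ∀ g : G, IsUniscalar g ∨ ∀ y ∈ contractionGroup g ∪ contractionGroup g⁻¹, ∀ x : X, y • x = x

/-- `G` is amenable: every continuous action of `G` on a nonempty compact Hausdorff space has an
invariant (regular Borel) probability measure. -/
def IsAmenable (G : Type u) [Group G] [TopologicalSpace G] : Prop :=
  ∀ (X : Type u) [TopologicalSpace X] [CompactSpace X] [T2Space X] [Nonempty X]
    [MeasurableSpace X] [BorelSpace X] [MulAction G X] [ContinuousSMul G X],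
    ∃ μ : Measure X, IsProbabilityMeasure μ ∧ μ.Regular ∧ ∀ g : G, μ.map (fun x => g • x) = μ

/-- The subgroup `A` is relatively amenable in `G`: for every continuous action of `G` on a nonempty
compact Hausdorff space there is an `A`-invariant (regular Borel) probability measure. -/
def IsRelAmenable {G : Type u} [Group G] [TopologicalSpace G] (A : Subgroup G) : Prop :=
  ∀ (X : Type u) [TopologicalSpace X] [CompactSpace X] [T2Space X] [Nonempty X]
    [MeasurableSpace X] [BorelSpace X] [MulAction G X] [ContinuousSMul G X],
    ∃ μ : Measure X, IsProbabilityMeasure μ ∧ μ.Regular ∧ ∀ g ∈ A, μ.map (fun x => g • x) = μ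

/-- Amenable subgroups are relatively amenable. -/
theorem isRelAmenable_of_isAmenable {G : Type u} [Group G] [TopologicalSpace G] (A : Subgroup G)
    (hA : IsAmenable A) : IsRelAmenable A := by
  intro X _ _ _ _ _ _ _ _
  obtain ⟨μ, h1, h2, h3⟩ := hA X
  exact ⟨μ, h1, h2, fun g hg => h3 ⟨g, hg⟩⟩

/-- The compact space `X` is a boundary of the subgroup `H` (minimal and strongly proximal): every
regular probability measure can be moved by `H` such that its mass in a given nonempty open set is
close to one. -/
def IsBoundary {G : Type u} [Group G] (H : Subgroup G) (X : Type v) [TopologicalSpace X]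
    [MeasurableSpace X] [MulAction G X] : Prop :=
  ∀ μ : Measure X, IsProbabilityMeasure μ → μ.Regular → ∀ U : Set X, IsOpen U → U.Nonempty →
    ∀ r : ℝ≥0∞, r < 1 → ∃ h ∈ H, r < μ ((fun x => h • x) ⁻¹' U)

/-- `G` is topologically simple (or trivial). -/
def IsTopSimple (G : Type u) [Group G] [TopologicalSpace G] : Prop :=
  ∀ N : Subgroup G, N.Normal → IsClosed (N : Set G) → N = ⊥ ∨ N = ⊤

/-- If all elements of a topologically simple group are uniscalar, or its Tits core is not dense, then
all its actions are tame. -/
theorem tame_of_simple {G : Type u} [Group G] [TopologicalSpace G] [IsTopologicalGroup G]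
    (hG : IsTopSimple G) (h : ¬ ((∃ g : G, ¬ IsUniscalar g) ∧ Dense (titsCore G : Set G)))
    (X : Type v) [MulAction G X] : IsTame G X := by
  intro g
  by_cases hg : IsUniscalar g
  · exact Or.inl hg
  right
  intro y hy x
  have hTn : (titsCore G).Normal := Pool.Agent.Lib.MP7d449a.titsCore_normal
  have hy' : y ∈ (titsCore G).topologicalClosure := by
    refine Subgroup.le_topologicalClosure _ (Subgroup.subset_closure ?_)
    rcases hy with hy | hy
    · exact Set.mem_iUnion.2 ⟨g, hy⟩
    · exact Set.mem_iUnion.2 ⟨g⁻¹, hy⟩
  rcases hG (titsCore G).topologicalClosure (Subgroup.is_normal_topologicalClosure (titsCore G))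
    (Subgroup.isClosed_topologicalClosure _) with h1 | h1
  · rw [h1, Subgroup.mem_bot] at hy'
    rw [hy', one_smul]
  · exfalso
    apply h
    refine ⟨⟨g, hg⟩, fun z => ?_⟩
    have h2 : z ∈ (titsCore G).topologicalClosure := by
      rw [h1]
      exact Subgroup.mem_top z
    exact h2

/-- Let `G = C P` with a compact set `C`, and let `X` be a compact space with a tame action of `G`.
(1) If `P` leaves a probability measure on `X` invariant then so does `G`.
(2) If `X` is a boundary of `G` then it is a boundary of `P`.
(3) If `P` normalises the relatively amenable subgroup `A` then the closed normal subgroup generated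
by `A` leaves a probability measure on `X` invariant.
(4) If `P` is relatively amenable then `G / N` is amenable for every closed normal subgroup `N` which
contains the contraction groups of `g` and of its inverse for all `g` which are not uniscalar.
(5) If `G` is topologically simple and not amenable, and `P` normalises a nontrivial relatively
amenable subgroup, then some element is not uniscalar and the Tits core is dense.
(6) If `G` is topologically simple and has a boundary which is not a boundary of `P` then some element
is not uniscalar and the Tits core is dense. -/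
theorem result {G : Type u} [Group G] [TopologicalSpace G] [IsTopologicalGroup G] [T2Space G]
    [LocallyCompactSpace G] [TotallyDisconnectedSpace G] (P : Subgroup G) (C : Set G)
    (hC : IsCompact C) (hCP : ∀ g : G, ∃ c ∈ C, ∃ p ∈ P, g = c * p) :
    (∀ (X : Type v) [TopologicalSpace X] [CompactSpace X] [T2Space X] [MeasurableSpace X]
      [BorelSpace X] [MulAction G X] [ContinuousSMul G X], IsTame G X →
      ∀ (μ : Measure X) [IsProbabilityMeasure μ], (∀ p ∈ P, μ.map (fun x => p • x) = μ) →
      ∃ ν : Measure X, IsProbabilityMeasure ν ∧ ν.Regular ∧ ∀ g : G, ν.map (fun x => g • x) = ν) ∧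
    (∀ (X : Type v) [TopologicalSpace X] [CompactSpace X] [T2Space X] [MeasurableSpace X]
      [BorelSpace X] [MulAction G X] [ContinuousSMul G X], IsTame G X →
      IsBoundary (⊤ : Subgroup G) X → IsBoundary P X) ∧
    (∀ A : Subgroup G, IsRelAmenable A → (∀ p ∈ P, ∀ a ∈ A, p * a * p⁻¹ ∈ A) →
      ∀ (X : Type u) [TopologicalSpace X] [CompactSpace X] [T2Space X] [Nonempty X]
      [MeasurableSpace X] [BorelSpace X] [MulAction G X] [ContinuousSMul G X], IsTame G X →
      ∃ ν : Measure X, IsProbabilityMeasure ν ∧ ν.Regular ∧
        ∀ g ∈ (Subgroup.normalClosure (A : Set G)).topologicalClosure,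
          ν.map (fun x => g • x) = ν) ∧
    (IsRelAmenable P → ∀ (N : Subgroup G) [N.Normal], IsClosed (N : Set G) →
      (∀ g : G, ¬ IsUniscalar g → contractionGroup g ∪ contractionGroup g⁻¹ ⊆ N) →
      IsAmenable (G ⧸ N)) ∧
    (IsTopSimple G → ¬ IsAmenable G → ∀ A : Subgroup G, A ≠ ⊥ → IsRelAmenable A →
      (∀ p ∈ P, ∀ a ∈ A, p * a * p⁻¹ ∈ A) →
      (∃ g : G, ¬ IsUniscalar g) ∧ Dense (titsCore G : Set G)) ∧
    (IsTopSimple G → ∀ (X : Type v) [TopologicalSpace X] [CompactSpace X] [T2Space X]
      [MeasurableSpace X] [BorelSpace X] [MulAction G X] [ContinuousSMul G X],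
      IsBoundary (⊤ : Subgroup G) X → ¬ IsBoundary P X →
      (∃ g : G, ¬ IsUniscalar g) ∧ Dense (titsCore G : Set G)) := by
  have part2 : ∀ (X : Type v) [TopologicalSpace X] [CompactSpace X] [T2Space X]
      [MeasurableSpace X] [BorelSpace X] [MulAction G X] [ContinuousSMul G X], IsTame G X →
      IsBoundary (⊤ : Subgroup G) X → IsBoundary P X := by
    intro X _ _ _ _ _ _ _ hX hG μ hμ1 hμ2 U hU hUn r hr
    refine Pool.Agent.Lib.MP7d449a.AM.bdy P hC hCP hX ?_ μ hU hUn hr
    intro μ hμ1 hμ2 U hU hUn r hr
    obtain ⟨g, -, hg⟩ := hG μ hμ1 hμ2 U hU hUn r hr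
    exact ⟨g, hg⟩
  have part3 : ∀ A : Subgroup G, IsRelAmenable A → (∀ p ∈ P, ∀ a ∈ A, p * a * p⁻¹ ∈ A) →
      ∀ (X : Type u) [TopologicalSpace X] [CompactSpace X] [T2Space X] [Nonempty X]
      [MeasurableSpace X] [BorelSpace X] [MulAction G X] [ContinuousSMul G X], IsTame G X →
      ∃ ν : Measure X, IsProbabilityMeasure ν ∧ ν.Regular ∧
        ∀ g ∈ (Subgroup.normalClosure (A : Set G)).topologicalClosure,
          ν.map (fun x => g • x) = ν := by
    intro A hA hAP X _ _ _ _ _ _ _ _ hX
    exact Pool.Agent.Lib.MP7d449a.AM.rad P hC hCP A hA hAP hX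
  refine ⟨?_, part2, part3, ?_, ?_, ?_⟩
  · intro X _ _ _ _ _ _ _ hX μ _ hμ
    exact Pool.Agent.Lib.MP7d449a.AM.space P hC hCP hX μ hμ
  · intro hP N _ hN hcon X _ _ _ _ _ _ _ _
    letI i1 : MulAction G X := MulAction.compHom X (QuotientGroup.mk' N)
    have hact : ∀ (g : G) (x : X), g • x = (QuotientGroup.mk g : G ⧸ N) • x := fun g x => rfl
    have i2 : ContinuousSMul G X := by
      constructor
      have h1 : Continuous fun y : G × X => (QuotientGroup.mk y.1 : G ⧸ N) • y.2 :=
        (QuotientGroup.continuous_mk.comp continuous_fst).smul continuous_snd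
      exact h1
    have hX : IsTame G X := by
      intro g
      by_cases hg : IsUniscalar g
      · exact Or.inl hg
      right
      intro y hy x
      have h4 : (QuotientGroup.mk y : G ⧸ N) = 1 := (QuotientGroup.eq_one_iff y).2 (hcon g hg hy)
      rw [hact, h4, one_smul]
    obtain ⟨μ, hμ1, -, hμ⟩ := hP X
    obtain ⟨ν, h1, h2, h3⟩ := Pool.Agent.Lib.MP7d449a.AM.space P hC hCP (X := X) hX μ hμ
    refine ⟨ν, h1, h2, fun q => ?_⟩
    obtain ⟨g, rfl⟩ := QuotientGroup.mk_surjective q
    exact h3 g
  · intro hG hna A hA hAa hAP
    by_contra hd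
    have hn : (Subgroup.normalClosure (A : Set G)).topologicalClosure.Normal :=
      Subgroup.is_normal_topologicalClosure _
    rcases hG _ hn (Subgroup.isClosed_topologicalClosure _) with h | h
    · apply hA
      rw [eq_bot_iff]
      intro a ha
      have h1 : a ∈ (Subgroup.normalClosure (A : Set G)).topologicalClosure :=
        Subgroup.le_topologicalClosure _ (Subgroup.subset_normalClosure ha)
      rwa [h] at h1
    · apply hna
      intro X _ _ _ _ _ _ _ _
      obtain ⟨ν, h1, h2, h3⟩ := part3 A hAa hAP X (tame_of_simple hG hd X)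
      exact ⟨ν, h1, h2, fun g => h3 g (by rw [h]; exact Subgroup.mem_top g)⟩
  · intro hG X _ _ _ _ _ _ _ hX hXP
    by_contra hd
    exact hXP (part2 X (tame_of_simple hG hd X) hX)

end Pool.Agent.Results.MP_7d449a_al.CocompactSubgroups
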