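import Pool.Agent.Lib.MP_7d449a_al.GP.Final

/-!
# The Tits core of a group with a Gelfand pair

Let `G` be a compactly generated totally disconnected locally compact group with a Gelfand pair
`(G, K)`. Then the discrete residual of `G` is the closure of the Tits core, and modulo the discrete
residual `G` has arbitrarily small compact open normal subgroups with virtually abelian quotient.
-/

set_option autoImplicit false

open Filter Topology
open scoped Pointwise

namespace Pool.Agent.Results.MP_7d449a_al.GelfandPairs

/-- The contraction group of `g`, as a set. -/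
def contractionGroup {G : Type*} [Group G] [TopologicalSpace G] (g : G) : Set G :=
  {x : G | Tendsto (fun n : ℕ => g ^ n * x * (g ^ n)⁻¹) atTop (𝓝 1)}

/-- The Tits core: the subgroup generated by all contraction groups. -/
def titsCore (G : Type*) [Group G] [TopologicalSpace G] : Subgroup G :=
  Subgroup.closure (⋃ g : G, contractionGroup g)

/-- The discrete residual: the intersection of all open normal subgroups. -/
def discreteResidual (G : Type*) [Group G] [TopologicalSpace G] : Subgroup G :=
  sInf {H : Subgroup G | IsOpen (H : Set G) ∧ H.Normal}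

/-- `G` is generated by a compact subset. -/
def CompactlyGenerated (G : Type*) [Group G] [TopologicalSpace G] : Prop :=
  ∃ C : Set G, IsCompact C ∧ Subgroup.closure C = ⊤

/-- `f` is invariant under left and right translation by the elements of `K`. -/
def Biinvariant {G : Type*} [Group G] (K : Subgroup G) (f : G → ℝ) : Prop :=
  ∀ x : G, ∀ k ∈ K, f (x * k) = f x ∧ f (k * x) = f x

/-- `(G, K)` is a Gelfand pair: `K` is compact and the continuous compactly supported functions
which are invariant under `K` on both sides commute under convolution. -/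
def IsGelfandPair {G : Type*} [Group G] [TopologicalSpace G] [IsTopologicalGroup G]
    [LocallyCompactSpace G] [MeasurableSpace G] [BorelSpace G] (K : Subgroup G) : Prop :=
  IsCompact (K : Set G) ∧ ∀ f h : G → ℝ, Continuous f → HasCompactSupport f → Biinvariant K f →
    Continuous h → HasCompactSupport h → Biinvariant K h → ∀ x : G,
      ∫ y, f y * h (y⁻¹ * x) ∂MeasureTheory.Measure.haar =
        ∫ y, h y * f (y⁻¹ * x) ∂MeasureTheory.Measure.haar

/-- The two definitions of a Gelfand pair agree. -/
theorem isGel {G : Type*} [Group G] [TopologicalSpace G] [IsTopologicalGroup G]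
    [LocallyCompactSpace G] [MeasurableSpace G] [BorelSpace G] {K : Subgroup G}
    (h : IsGelfandPair K) : Pool.Agent.Lib.MP7d449a.GP.IsGel K :=
  ⟨h.1, fun f g hf hfc hg hgc hf1 hf2 hg1 hg2 x =>
    h.2 f g hf hfc (fun x k hk => ⟨hf1 x k hk, hf2 x k hk⟩) hg hgc
      (fun x k hk => ⟨hg1 x k hk, hg2 x k hk⟩) x⟩

/-- Let `G` be a compactly generated totally disconnected locally compact group with a Gelfand pair
`(G, K)`. The discrete residual is the closure of the Tits core, and every neighbourhood `W` of `1`
contains a compact set `Q` such that `U = Q Res(G)` is an open normal subgroup with virtually abelian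
quotient. -/
theorem result {G : Type*} [Group G] [TopologicalSpace G] [IsTopologicalGroup G] [T2Space G]
    [LocallyCompactSpace G] [TotallyDisconnectedSpace G] [MeasurableSpace G] [BorelSpace G]
    (hG : CompactlyGenerated G) (K : Subgroup G) (hK : IsGelfandPair K) :
    (discreteResidual G : Set G) = closure (titsCore G : Set G) ∧
    ∀ W ∈ 𝓝 (1 : G), ∃ U A : Subgroup G, U.Normal ∧ IsOpen (U : Set G) ∧
      (∃ Q ⊆ W, IsCompact Q ∧ (U : Set G) = Q * (discreteResidual G : Set G)) ∧
      U ≤ A ∧ A.FiniteIndex ∧ ∀ a ∈ A, ∀ b ∈ A, a * b * a⁻¹ * b⁻¹ ∈ U := by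
  have hTn : (titsCore G).Normal := Pool.Agent.Lib.MP7d449a.titsCore_normal
  have hNn : (titsCore G).topologicalClosure.Normal :=
    Subgroup.is_normal_topologicalClosure (titsCore G)
  have hcon : ∀ g : G, Pool.Agent.Lib.MP7d449a.con g ⊆ ((titsCore G).topologicalClosure : Set G) :=
    fun g x hx => Subgroup.le_topologicalClosure _
      (Subgroup.subset_closure (Set.mem_iUnion.2 ⟨g, hx⟩))
  have heq : (discreteResidual G : Set G) = closure (titsCore G : Set G) := by
    apply Set.Subset.antisymm
    · intro x hx
      by_contra hxN
      have hNc : IsClosed ((titsCore G).topologicalClosure : Set G) :=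
        Subgroup.isClosed_topologicalClosure _
      have hW : {y : G | y⁻¹ * x ∈ ((titsCore G).topologicalClosure : Set G)ᶜ} ∈ 𝓝 (1 : G) := by
        have h1 : Continuous fun y : G => y⁻¹ * x := by fun_prop
        apply h1.continuousAt.preimage_mem_nhds
        apply hNc.isOpen_compl.mem_nhds
        simpa using hxN
      obtain ⟨U, -, hUn, hUo, ⟨Q, hQW, -, hQU⟩, -⟩ :=
        Pool.Agent.Lib.MP7d449a.GP.fFN7 G K (titsCore G).topologicalClosure hG (isGel hK) hNn hcon
          _ hW
      have h2 : x ∈ (U : Set G) := by
        have h3 : x ∈ sInf {H : Subgroup G | IsOpen (H : Set G) ∧ H.Normal} := hx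
        exact Subgroup.mem_sInf.1 h3 U ⟨hUo, hUn⟩
      rw [hQU] at h2
      obtain ⟨q, hq, n, hn, rfl⟩ := Set.mem_mul.1 h2
      apply hQW hq
      simpa using hn
    · exact closure_minimal Pool.Agent.Lib.MP7d449a.titsCore_le_residual
        Pool.Agent.Lib.MP7d449a.residual_closed
  refine ⟨heq, fun W hW => ?_⟩
  have hRn : (discreteResidual G).Normal := Pool.Agent.Lib.MP7d449a.residual_normal
  exact Pool.Agent.Lib.MP7d449a.GP.fFN7 G K (discreteResidual G) hG (isGel hK) hRn
    (fun g => Pool.Agent.Lib.MP7d449a.con_sub_residual g) W hW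

/-- So Q1 has a positive answer for these groups. -/
theorem dense_titsCore {G : Type*} [Group G] [TopologicalSpace G] [IsTopologicalGroup G] [T2Space G]
    [LocallyCompactSpace G] [TotallyDisconnectedSpace G] [MeasurableSpace G] [BorelSpace G]
    (hG : CompactlyGenerated G) (K : Subgroup G) (hK : IsGelfandPair K)
    (hR : ∀ H : Subgroup G, IsOpen (H : Set G) → H.Normal → H = ⊤) :
    Dense (titsCore G : Set G) := by
  have h1 : discreteResidual G = ⊤ := by
    rw [eq_top_iff]
    refine le_sInf fun H hH => ?_
    rw [hR H hH.1 hH.2]
  intro x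
  have h2 := (result hG K hK).1
  rw [h1] at h2
  rw [← h2]
  exact Set.mem_univ x

end Pool.Agent.Results.MP_7d449a_al.GelfandPairs
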