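import Pool.Agent.Lib.MP_7d449a_al.GP.Final

/-!
# Products of compact sets, powers of compact sets and subgroups with a Gelfand pair

Let `G` be a totally disconnected locally compact group, `X_1, ..., X_n` subsets each of which is
compact, or the set of all integer powers of the elements of a compact set, or a closed compactly
generated subgroup `H` with a Gelfand pair `(H, K)`. Suppose that the product `X_1 ... X_n` is dense,
or that its closure contains a subgroup `Γ` such that every open subgroup which contains `Γ` has finite
index (for instance a lattice). Then the discrete residual of `G` is the closure of the Tits core, and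
the quotient of `G` by it has arbitrarily small open normal subgroups.
-/

set_option autoImplicit false

open Filter Topology
open scoped Pointwise

namespace Pool.Agent.Results.MP_7d449a_al.GelfandPieces

/-- The contraction group of `g`, as a set. -/
def contractionGroup {G : Type*} [Group G] [TopologicalSpace G] (g : G) : Set G :=
  {x : G | Tendsto (fun n : ℕ => g ^ n * x * (g ^ n)⁻¹) atTop (𝓝 1)}

/-- The Tits core: the subgroup generated by all contraction groups. -/
def titsCore (G : Type*) [Group G] [TopologicalSpace G] : Subgroup G :=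
  Subgroup.closure (⋃ g : G, contractionGroup g)

/-- The discrete residual: the intersection of all open normal subgroups. -/
def discreteResidual (G : Type*) [Group G] [TopologicalSpace G] : Subgroup G :=
  sInf {H : Subgroup G | IsOpen (H : Set G) ∧ H.Normal}

/-- The set of all integer powers of the elements of `C`. -/
def powers {G : Type*} [Group G] (C : Set G) : Set G := {x | ∃ c ∈ C, ∃ n : ℤ, c ^ n = x}

/-- `G` is generated by a compact subset. -/
def CompactlyGenerated (G : Type*) [Group G] [TopologicalSpace G] : Prop :=
  ∃ C : Set G, IsCompact C ∧ Subgroup.closure C = ⊤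

/-- `f` is invariant under left and right translation by the elements of `K`. -/
def Biinvariant {G : Type*} [Group G] (K : Subgroup G) (f : G → ℝ) : Prop :=
  ∀ x : G, ∀ k ∈ K, f (x * k) = f x ∧ f (k * x) = f x

/-- `(G, K)` is a Gelfand pair: `K` is compact and the continuous compactly supported functions
which are invariant under `K` on both sides commute under convolution. -/
def IsGelfandPair {G : Type*} [Group G] [TopologicalSpace G] [IsTopologicalGroup G]
    [LocallyCompactSpace G] [MeasurableSpace G] [BorelSpace G] (K : Subgroup G) : Prop :=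
  IsCompact (K : Set G) ∧ ∀ f h : G → ℝ, Continuous f → HasCompactSupport f → Biinvariant K f →
    Continuous h → HasCompactSupport h → Biinvariant K h → ∀ x : G,
      ∫ y, f y * h (y⁻¹ * x) ∂MeasureTheory.Measure.haar =
        ∫ y, h y * f (y⁻¹ * x) ∂MeasureTheory.Measure.haar

/-- `H` is a closed compactly generated subgroup which has a Gelfand pair `(H, K)`. -/
def IsGelfandSubgroup {G : Type*} [Group G] [TopologicalSpace G] [IsTopologicalGroup G]
    [MeasurableSpace G] [BorelSpace G] (H : Subgroup G) : Prop :=
  IsClosed (H : Set G) ∧ CompactlyGenerated H ∧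
    ∃ (_ : LocallyCompactSpace H) (K : Subgroup H), IsGelfandPair K

/-- `X` is compact, or the set of the powers of the elements of a compact set, or a subgroup with a
Gelfand pair. -/
def IsPiece {G : Type*} [Group G] [TopologicalSpace G] [IsTopologicalGroup G]
    [MeasurableSpace G] [BorelSpace G] (X : Set G) : Prop :=
  IsCompact X ∨ (∃ C : Set G, IsCompact C ∧ X = powers C) ∨
    ∃ H : Subgroup G, IsGelfandSubgroup H ∧ X = (H : Set G)

/-- The two definitions of a Gelfand pair agree. -/
theorem isGel {G : Type*} [Group G] [TopologicalSpace G] [IsTopologicalGroup G]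
    [LocallyCompactSpace G] [MeasurableSpace G] [BorelSpace G] {K : Subgroup G}
    (h : IsGelfandPair K) : Pool.Agent.Lib.MP7d449a.GP.IsGel K :=
  ⟨h.1, fun f g hf hfc hg hgc hf1 hf2 hg1 hg2 x =>
    h.2 f g hf hfc (fun x k hk => ⟨hf1 x k hk, hf2 x k hk⟩) hg hgc
      (fun x k hk => ⟨hg1 x k hk, hg2 x k hk⟩) x⟩

/-- The two definitions of a subgroup with a Gelfand pair agree. -/
theorem gelSub {G : Type*} [Group G] [TopologicalSpace G] [IsTopologicalGroup G]
    [LocallyCompactSpace G] [MeasurableSpace G] [BorelSpace G] {H : Subgroup G}
    (h : IsGelfandSubgroup H) : Pool.Agent.Lib.MP7d449a.GP.GelSub H := by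
  obtain ⟨h1, ⟨C, hC, hCt⟩, h3, K, hK⟩ := h
  refine ⟨⟨H.subtype '' C, hC.image continuous_subtype_val, ?_⟩, h1, h3, K, isGel hK⟩
  rw [← MonoidHom.map_closure, hCt, ← MonoidHom.range_eq_map, Subgroup.range_subtype]

/-- Let `X_1, ..., X_n` be pieces, and let `Γ` be a subgroup in the closure of their product such that
every open subgroup which contains `Γ` has finite index. Then the discrete residual is the closure of
the Tits core; it lies in every closed normal subgroup which contains the contraction groups of the
elements of the noncompact pieces; modulo it there are arbitrarily small open normal subgroups. -/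
theorem result {G : Type*} [Group G] [TopologicalSpace G] [IsTopologicalGroup G] [T2Space G]
    [LocallyCompactSpace G] [TotallyDisconnectedSpace G] [MeasurableSpace G] [BorelSpace G]
    (X : List (Set G)) (hX : ∀ Y ∈ X, IsPiece Y) (Γ : Subgroup G)
    (hΓ : (Γ : Set G) ⊆ closure (X.prod : Set G))
    (hΓO : ∀ O : Subgroup G, IsOpen (O : Set G) → Γ ≤ O → O.FiniteIndex) :
    (discreteResidual G : Set G) = closure (titsCore G : Set G) ∧
    (∀ N : Subgroup G, N.Normal → IsClosed (N : Set G) →
      (∀ Y ∈ X, IsCompact Y ∨ ∀ y ∈ Y, contractionGroup y ⊆ N) → discreteResidual G ≤ N) ∧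
    ∀ W ∈ 𝓝 (1 : G), ∃ H : Subgroup G, H.Normal ∧ IsOpen (H : Set G) ∧
      (H : Set G) ⊆ W * (discreteResidual G : Set G) := by
  refine Pool.Agent.Lib.MP7d449a.GP.fFN6 G X Γ (fun Y hY => ?_) hΓ hΓO
  rcases hX Y hY with h | h | ⟨H, hH, rfl⟩
  · exact Or.inl h
  · exact Or.inr (Or.inl h)
  · exact Or.inr (Or.inr ⟨H, rfl, gelSub hH⟩)

/-- The case of a dense product. -/
theorem dense_product {G : Type*} [Group G] [TopologicalSpace G] [IsTopologicalGroup G] [T2Space G]
    [LocallyCompactSpace G] [TotallyDisconnectedSpace G] [MeasurableSpace G] [BorelSpace G]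
    (X : List (Set G)) (hX : ∀ Y ∈ X, IsPiece Y) (hd : Dense (X.prod : Set G)) :
    (discreteResidual G : Set G) = closure (titsCore G : Set G) := by
  refine (result X hX ⊤ ?_ ?_).1
  · rw [hd.closure_eq]
    exact Set.subset_univ _
  · intro O _ hO
    rw [top_le_iff.1 hO]
    infer_instance

/-- So Q1 has a positive answer for these groups. -/
theorem dense_titsCore {G : Type*} [Group G] [TopologicalSpace G] [IsTopologicalGroup G] [T2Space G]
    [LocallyCompactSpace G] [TotallyDisconnectedSpace G] [MeasurableSpace G] [BorelSpace G]
    (X : List (Set G)) (hX : ∀ Y ∈ X, IsPiece Y) (Γ : Subgroup G)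
    (hΓ : (Γ : Set G) ⊆ closure (X.prod : Set G))
    (hΓO : ∀ O : Subgroup G, IsOpen (O : Set G) → Γ ≤ O → O.FiniteIndex)
    (hR : ∀ H : Subgroup G, IsOpen (H : Set G) → H.Normal → H = ⊤) :
    Dense (titsCore G : Set G) := by
  have h1 : discreteResidual G = ⊤ := by
    rw [eq_top_iff]
    refine le_sInf fun H hH => ?_
    rw [hR H hH.1 hH.2]
  intro x
  have h2 := (result X hX Γ hΓ hΓO).1
  rw [h1] at h2
  rw [← h2]
  exact Set.mem_univ x

end Pool.Agent.Results.MP_7d449a_al.GelfandPieces
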