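import Pool.Agent.Lib.MP_7d449a_al.SO.Final

/-!
# Soluble subgroups of totally disconnected locally compact groups

Let `G` be a totally disconnected locally compact group, `N` a closed normal subgroup and `H` a
subgroup which is generated by a compact set and virtually soluble. If the contraction groups of all
elements of `H` lie in `N` then `H` normalises arbitrarily small open subgroups of `G` modulo `N`.
Hence the discrete residual of `G` is the closure of the Tits core if `G` is the closure of a product of
finitely many sets each of which is compact, or the set of all powers of the elements of a compact set,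
or such a subgroup `H` (or if this closure contains a lattice of `G`).
-/

set_option autoImplicit false

open Filter Topology
open scoped Pointwise

namespace Pool.Agent.Results.MP_7d449a_al.SolubleSubgroups

/-- The contraction group of `g`, as a set. -/
def contractionGroup {G : Type*} [Group G] [TopologicalSpace G] (g : G) : Set G :=
  {x : G | Tendsto (fun n : ℕ => g ^ n * x * (g ^ n)⁻¹) atTop (𝓝 1)}

/-- The Tits core: the subgroup generated by all contraction groups. -/
def titsCore (G : Type*) [Group G] [TopologicalSpace G] : Subgroup G :=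
  Subgroup.closure (⋃ g : G, contractionGroup g)

/-- The discrete residual: the intersection of all open normal subgroups. -/
def discreteResidual (G : Type*) [Group G] [TopologicalSpace G] : Subgroup G :=
  sInf {H : Subgroup G | IsOpen (H : Set G) ∧ H.Normal}

/-- The set of all integer powers of the elements of `C`. -/
def powers {G : Type*} [Group G] (C : Set G) : Set G := {x | ∃ c ∈ C, ∃ n : ℤ, c ^ n = x}

/-- The subgroup `H` is generated by a compact set and has a soluble subgroup of finite index. -/
def IsSolublePiece {G : Type*} [Group G] [TopologicalSpace G] (H : Subgroup G) : Prop :=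
  (∃ C : Set G, IsCompact C ∧ Subgroup.closure C = H) ∧
    ∃ M : Subgroup H, M.index ≠ 0 ∧ Group.IsSolvable M

/-- `X` is compact, or the set of the powers of the elements of a compact set, or a virtually soluble
subgroup generated by a compact set. -/
def IsPiece {G : Type*} [Group G] [TopologicalSpace G] (X : Set G) : Prop :=
  IsCompact X ∨ (∃ C : Set G, IsCompact C ∧ X = powers C) ∨
    ∃ H : Subgroup G, IsSolublePiece H ∧ X = (H : Set G)

/-- (1) `H` normalises arbitrarily small open subgroups modulo `N` if the contraction groups of its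
elements lie in `N`.  (2) Let `Γ` be a subgroup in the closure of a product of pieces such that every open
subgroup which contains `Γ` has finite index.  Then the discrete residual is the closure of the Tits core;
it lies in every closed normal subgroup which contains the contraction groups of the elements of the
noncompact pieces; modulo it there are arbitrarily small open normal subgroups. -/
theorem result {G : Type*} [Group G] [TopologicalSpace G] [IsTopologicalGroup G] [T2Space G]
    [LocallyCompactSpace G] [TotallyDisconnectedSpace G] :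
    (∀ N H : Subgroup G, N.Normal → IsSolublePiece H → (∀ h ∈ H, contractionGroup h ⊆ N) →
      ∀ W ∈ 𝓝 (1 : G), ∃ O : Subgroup G, IsOpen (O : Set G) ∧ N ≤ O ∧
        (O : Set G) ⊆ W * (N : Set G) ∧ ∀ h ∈ H, ∀ x ∈ O, h * x * h⁻¹ ∈ O) ∧
    (∀ (X : List (Set G)) (Γ : Subgroup G), (∀ Y ∈ X, IsPiece Y) →
      (Γ : Set G) ⊆ closure (X.prod : Set G) →
      (∀ O : Subgroup G, IsOpen (O : Set G) → Γ ≤ O → O.FiniteIndex) →
      (discreteResidual G : Set G) = closure (titsCore G : Set G) ∧
      (∀ N : Subgroup G, N.Normal → IsClosed (N : Set G) →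
        (∀ Y ∈ X, IsCompact Y ∨ ∀ y ∈ Y, contractionGroup y ⊆ N) → discreteResidual G ≤ N) ∧
      ∀ W ∈ 𝓝 (1 : G), ∃ H : Subgroup G, H.Normal ∧ IsOpen (H : Set G) ∧
        (H : Set G) ⊆ W * (discreteResidual G : Set G)) := by
  constructor
  · intro N H hN hH hcon W hW
    exact Pool.Agent.Lib.MP7d449a.SO.small hN hH hcon hW
  · intro X Γ hX hΓ hfi
    refine Pool.Agent.Lib.MP7d449a.SO.fFN8 G X Γ (fun Y hY => ?_) hΓ hfi
    rcases hX Y hY with h | h | ⟨H, hH, rfl⟩
    · exact Or.inl h
    · exact Or.inr (Or.inl h)
    · exact Or.inr (Or.inr ⟨H, rfl, hH⟩)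

/-- If all contraction groups of elements of `H` are trivial then `H` normalises arbitrarily small
compact open subgroups. -/
theorem small_compact {G : Type*} [Group G] [TopologicalSpace G] [IsTopologicalGroup G] [T2Space G]
    [LocallyCompactSpace G] [TotallyDisconnectedSpace G] (H : Subgroup G) (hH : IsSolublePiece H)
    (hcon : ∀ h ∈ H, contractionGroup h ⊆ {1}) (W : Set G) (hW : W ∈ 𝓝 (1 : G)) :
    ∃ O : Subgroup G, IsOpen (O : Set G) ∧ IsCompact (O : Set G) ∧ (O : Set G) ⊆ W ∧
      ∀ h ∈ H, ∀ x ∈ O, h * x * h⁻¹ ∈ O := by
  obtain ⟨V, hVo, hVc, hVW⟩ := Pool.Agent.Lib.MP7d449a.vanDantzig hW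
  obtain ⟨O, h1, -, h3, h4⟩ := (result (G := G)).1 ⊥ H inferInstance hH
    (fun h hh x hx => Subgroup.mem_bot.2 (hcon h hh hx)) V (hVo.mem_nhds V.one_mem)
  have h5 : (O : Set G) ⊆ (V : Set G) := by
    intro x hx
    obtain ⟨v, hv, n, hn, rfl⟩ := h3 hx
    have hn : n = 1 := Subgroup.mem_bot.1 hn
    show v * n ∈ (V : Set G)
    rw [hn, mul_one]
    exact hv
  exact ⟨O, h1, hVc.of_isClosed_subset (Subgroup.isClosed_of_isOpen O h1) h5, h5.trans hVW, h4⟩

/-- So Q1 has a positive answer for these groups. -/
theorem dense_titsCore {G : Type*} [Group G] [TopologicalSpace G] [IsTopologicalGroup G] [T2Space G]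
    [LocallyCompactSpace G] [TotallyDisconnectedSpace G] (X : List (Set G))
    (hX : ∀ Y ∈ X, IsPiece Y) (Γ : Subgroup G) (hΓ : (Γ : Set G) ⊆ closure (X.prod : Set G))
    (hΓO : ∀ O : Subgroup G, IsOpen (O : Set G) → Γ ≤ O → O.FiniteIndex)
    (hR : ∀ H : Subgroup G, IsOpen (H : Set G) → H.Normal → H = ⊤) :
    Dense (titsCore G : Set G) := by
  have h1 : discreteResidual G = ⊤ := by
    rw [eq_top_iff]
    refine le_sInf fun H hH => ?_
    rw [hR H hH.1 hH.2]
  intro x
  have h2 := ((result (G := G)).2 X Γ hX hΓ hΓO).1
  rw [h1] at h2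
  rw [← h2]
  exact Set.mem_univ x

end Pool.Agent.Results.MP_7d449a_al.SolubleSubgroups
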